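import Pool.Agent.Q123.CD.Final

/-!
Problem MP_79499b_co (difference sets with Singer parameters): difference sets, in arbitrary finite
groups, which are linear or Boolean combinations of cosets of subgroups.
-/

set_option autoImplicit false

open Finset

namespace Pool.Agent.Results.MP_79499b_co.CosetCombinations

/-- `D` is a difference set in the group `G`: it has `k` elements, and every `g ≠ 1` is
`d₁ d₂⁻¹` for exactly `lam` pairs of elements of `D`. -/
def IsDifferenceSet {G : Type} [Group G] [DecidableEq G] (D : Finset G) (k lam : ℕ) : Prop :=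
  D.card = k ∧ ∀ g : G, g ≠ 1 →
    ((D ×ˢ D).filter (fun p : G × G => p.1 * p.2⁻¹ = g)).card = lam

/-- `C` is a coset `a H b` of a subgroup `H` (so a left coset and also a right coset). -/
def IsCoset {G : Type} [Group G] (C : Set G) : Prop :=
  ∃ (a b : G) (H : Subgroup G), C = {x | ∃ h ∈ H, x = a * h * b}

/-- `D` is a Boolean combination of (at most) `s` cosets: whether `x` is in `D` depends only on the
set of those of the `s` cosets which contain `x`. -/
def IsCombination {G : Type} [Group G] (s : ℕ) (D : Finset G) : Prop :=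
  ∃ (C : Fin s → Set G) (𝓕 : Set (Set (Fin s))),
    (∀ i, IsCoset (C i)) ∧ ∀ x, x ∈ D ↔ {i | x ∈ C i} ∈ 𝓕

/-- Some finite group `G` contains a difference set with the Singer parameters of `(n, m)` which is
a Boolean combination of `s` cosets. -/
def HasSingerCombination (n m s : ℕ) : Prop :=
  ∃ (G : Type) (_ : Group G) (_ : Fintype G) (_ : DecidableEq G) (D : Finset G) (k lam : ℕ),
    Fintype.card G * (n - 1) = n ^ m - 1 ∧ k * (n - 1) = n ^ (m - 1) - 1 ∧
    lam * (n - 1) = n ^ (m - 2) - 1 ∧ IsDifferenceSet D k lam ∧ IsCombination s D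

theorem result :
    -- (1) all difference sets, linear combinations of cosets
    (∀ (G : Type) (_ : Group G) (_ : Fintype G) (_ : DecidableEq G) (D : Finset G) (k lam N : ℕ)
      (c₀ : ℝ) (c : Fin N → ℝ) (C : Fin N → Set G),
      IsDifferenceSet D k lam → 1 < Fintype.card G → (∀ i, IsCoset (C i)) →
      (∀ x, Set.indicator (D : Set G) (fun _ => (1 : ℝ)) x =
        c₀ + ∑ i, c i * Set.indicator (C i) (fun _ => (1 : ℝ)) x) →
      Real.sqrt ((k : ℝ) - lam) * ((Fintype.card G : ℝ) - 1) ≤
        (∑ i, |c i|) * (Fintype.card G : ℝ)) ∧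
    -- (2) all difference sets, Boolean combinations of cosets
    (∀ (G : Type) (_ : Group G) (_ : Fintype G) (_ : DecidableEq G) (D : Finset G) (k lam s : ℕ),
      IsDifferenceSet D k lam → 1 < Fintype.card G → IsCombination s D →
      Real.sqrt ((k : ℝ) - lam) * ((Fintype.card G : ℝ) - 1) ≤
        (3 ^ s - 1) / 2 * (Fintype.card G : ℝ)) ∧
    -- (3) Singer parameters
    (∀ n m s : ℕ, 2 ≤ n → 3 ≤ m → HasSingerCombination n m s → 2 * n ^ (m - 2) < 9 ^ s) ∧
    (∀ s : ℕ, {p : ℕ × ℕ | 2 ≤ p.1 ∧ 3 ≤ p.2 ∧ HasSingerCombination p.1 p.2 s}.Finite) ∧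
    -- (4) the order of magnitude in (2) is the true one
    (∀ t : ℕ, ∃ (G : Type) (_ : Group G) (_ : Fintype G) (_ : DecidableEq G) (D : Finset G),
      Fintype.card G = 4 ^ (t + 1) ∧ IsDifferenceSet D (2 * 4 ^ t - 2 ^ t) (4 ^ t - 2 ^ t) ∧
      IsCombination (2 * (t + 1)) D) := by
  have h3 : ∀ n m s : ℕ, 2 ≤ n → 3 ≤ m → HasSingerCombination n m s →
      2 * n ^ (m - 2) < 9 ^ s := by
    rintro n m s hn hm ⟨G, i1, i2, i3, D, k, lam, hv, hk, hl, hD, hC⟩
    exact Q123.CD.singer_bound D hn hm hv hk hl hD hC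
  refine ⟨?_, ?_, h3, ?_, ?_⟩
  · intro G i1 i2 i3 D k lam N c₀ c C hD hv hC h
    exact Q123.CD.linear_bound D hD hv c₀ c C hC h
  · intro G i1 i2 i3 D k lam s hD hv hC
    exact Q123.CD.coset_bound D hD hv hC
  · intro s
    refine ((Set.finite_Iio (9 ^ s)).prod (Set.finite_Iio (9 ^ s + 3))).subset ?_
    rintro ⟨n, m⟩ ⟨hn, hm, h⟩
    have h1 := h3 n m s hn hm h
    simp only at hn hm h1
    obtain ⟨r, rfl⟩ : ∃ r, m = r + 3 := ⟨m - 3, by omega⟩
    have e : r + 3 - 2 = r + 1 := by omega
    rw [e] at h1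
    have h2 : n ≤ n ^ (r + 1) := Nat.le_self_pow (by omega) n
    have h4 : r + 1 < n ^ (r + 1) := Nat.lt_pow_self hn
    constructor
    · change n < 9 ^ s
      omega
    · change r + 3 < 9 ^ s + 3
      omega
  · intro t
    refine ⟨Multiplicative (Q123.CD.V (t + 1)), inferInstance, inferInstance, inferInstance,
      Q123.CD.quad (t + 1), ?_, Q123.CD.quad_isDS t, ?_⟩
    · have h := Q123.CD.card_V (t + 1)
      rw [Fintype.card_multiplicative]
      exact_mod_cast h
    · have h := Q123.CD.quad_combination (t + 1)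
      rw [← two_mul] at h
      exact h

end Pool.Agent.Results.MP_79499b_co.CosetCombinations
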