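import Pool.Agent.Q138.PS.UE
import Pool.Agent.Results.MP_79499b_co.OrderCountOdd
import Pool.Agent.Results.MP_79499b_co.AlmostAllThreeDvd
import Pool.Agent.Results.MP_79499b_co.AlmostAllOddDvd

/-!
# The orders `⌊α P(n)⌋` of difference sets with Singer parameters

Let `q ≥ 2`. Outside a set of real numbers of Hausdorff dimension at most `q / (q + 1 / (q 2 ^ (q - 1)))` (that is
`8 / 9` for `q = 2`) every `α > 0` has the following property, for ALL integral polynomials `P` of degree `q` with positive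
leading coefficient and coefficients of size at most `N ^ η`. For at most `N (log N) ^ (ε - 1)` of the `n ≤ N` some finite group
contains a planar difference set of order `⌊α P(n)⌋` (or one with the Singer parameters of `(⌊α P(n)⌋, m)`, `m` odd with a bounded
prime factor), and the `n` for which `⌊α P(n)⌋` is the order of a planar difference set and not a prime power are
`o` of the `n` for which `⌊α P(n)⌋` is prime.
-/

set_option autoImplicit false

namespace Pool.Agent.Results.MP_79499b_co.OrdersAlongRealMultiples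

open Finset Filter Topology
open Pool.Agent.Q138.PS
open Pool.Agent.Results.MP_79499b_co.OrderCountOdd (HasSingerDifferenceSet)

open Classical in
/-- the number of the `1 ≤ n ≤ N` for which `⌊α P(n)⌋` has the property `Z` -/
noncomputable def count (Z : ℕ → Prop) (α : ℝ) (P : Polynomial ℤ) (N : ℕ) : ℕ :=
  ((Icc 1 N).filter fun n : ℕ => Z ⌊α * ((P.eval (n : ℤ) : ℤ) : ℝ)⌋₊).card

/-- `n ≥ 2` is the order of a difference set with Singer parameters `(n, m)` in some finite group, for some odd `m ≥ 3` with a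
prime factor at most `K`; for `m = 3` this is a planar difference set of order `n` -/
def Order (K n : ℕ) : Prop := 2 ≤ n ∧ ∃ m : ℕ, Odd m ∧ 3 ≤ m ∧ m.minFac ≤ K ∧ HasSingerDifferenceSet n m

/-- `n ≥ 2` is not a prime power and is the order of a difference set with Singer parameters `(n, m)` in some finite group, for
some odd multiple `m` of `L`, where if `L ≠ 3` is a prime only `n ≡ 2 (mod 4)`, and `n ≡ 1 (mod 4)` with `m ≡ 3 (mod 4)`, are
considered -/
def NewOrder (L n : ℕ) : Prop :=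
  2 ≤ n ∧ ¬ IsPrimePow n ∧ ∃ m : ℕ, Odd m ∧ 3 ≤ m ∧ L ∣ m ∧
    (L = 3 ∨ ¬ L.Prime ∨ n % 4 = 2 ∨ (n % 4 = 1 ∧ m % 4 = 3)) ∧ HasSingerDifferenceSet n m

theorem count_eq (Z : ℕ → Prop) (α : ℝ) (P : Polynomial ℤ) (N : ℕ) : (count Z α P N : ℝ) = cnP Z α P N := by
  classical
  unfold count cnP cn
  refine congrArg _ (congrArg _ ?_)
  ext n
  simp only [mem_filter]

theorem seed (K : ℕ) (ε : ℝ) (hε : 0 < ε) : ∃ C : ℝ, ∀ X : ℕ, 3 ≤ X →
    cn (Order K) X ≤ C * X * (Real.log X) ^ (-(1 - ε)) := by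
  obtain ⟨C, -, h⟩ := Pool.Agent.Results.MP_79499b_co.OrderCountOdd.result K ε hε
  refine ⟨C, fun X hX => ?_⟩
  rw [cn_ncard, show -(1 - ε) = ε - 1 by ring]
  refine le_trans ?_ (h X hX)
  refine Nat.cast_le.2 (Set.ncard_le_ncard ?_ ((Set.finite_Iic X).subset fun n hn => hn.2.1))
  rintro n ⟨h1, h2, h3, h4⟩
  exact ⟨h3, h2, h4⟩

theorem seed2 (L : ℕ) (hL : Odd L) (h3 : 3 ≤ L) :
    Tendsto (fun y : ℕ => cn (NewOrder L) y * Real.log y / y) atTop (𝓝 0) := by
  have key : ∀ S : ℕ → Set ℕ, (∀ X, ({n : ℕ | 1 ≤ n ∧ n ≤ X ∧ NewOrder L n}) ⊆ S X) → (∀ X, (S X).Finite) →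
      Tendsto (fun X : ℕ => ((S X).ncard : ℝ) * Real.log X / X) atTop (𝓝 0) →
      Tendsto (fun y : ℕ => cn (NewOrder L) y * Real.log y / y) atTop (𝓝 0) := by
    intro S h1 h2 h4
    refine squeeze_zero' ?_ ?_ h4
    · filter_upwards [eventually_ge_atTop 1] with y hy
      have : 0 ≤ Real.log y := Real.log_nonneg (by exact_mod_cast hy)
      exact div_nonneg (mul_nonneg (cn_nonneg _ _) this) (Nat.cast_nonneg _)
    · filter_upwards [eventually_ge_atTop 1] with y hy
      have : 0 ≤ Real.log y := Real.log_nonneg (by exact_mod_cast hy)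
      rw [cn_ncard]
      have h5 : ({n : ℕ | 1 ≤ n ∧ n ≤ y ∧ NewOrder L n}.ncard : ℝ) ≤ (S y).ncard :=
        Nat.cast_le.2 (Set.ncard_le_ncard (h1 y) (h2 y))
      gcongr
  by_cases hL3 : L = 3
  · subst hL3
    refine key _ ?_ ?_ Pool.Agent.Results.MP_79499b_co.AlmostAllThreeDvd.result
    · rintro X n ⟨-, h2, h4, h5, m, h6, h7, h8, -, h9⟩
      exact ⟨h4, h2, h5, m, h6, h7, h8, h9⟩
    · exact fun X => (Set.finite_Iic X).subset fun n hn => hn.2.1
  · refine key _ ?_ ?_ (Pool.Agent.Results.MP_79499b_co.AlmostAllOddDvd.result L hL h3)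
    · rintro X n ⟨-, h2, h4, h5, m, h6, h7, h8, h9, h10⟩
      exact ⟨h4, h2, h5, m, h6, h7, h8, h9.resolve_left hL3, h10⟩
    · exact fun X => (Set.finite_Iic X).subset fun n hn => hn.2.1

/-- **Theorem.** Let `q ≥ 2`. There is a set `E` of Hausdorff dimension at most `q / (q + 1 / (q 2 ^ (q - 1)))` such that for
each `α > 0` outside `E`:
(1) for all `K` and `ε > 0` there is `η > 0` such that for all large `N` and ALL `P ∈ ℤ[X]` of degree `q` with positive leading
coefficient and coefficients of size at most `N ^ η`, at most `N (log N) ^ (ε - 1)` of the `n ≤ N` are such that `⌊α P(n)⌋` is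
an order (`Order K`);
(2) for all odd `L ≥ 3` and `ε > 0` there is `η > 0` such that moreover the number of the `n ≤ N` for which `⌊α P(n)⌋` is an
order in the sense of `L` and not a prime power is at most `ε` times the number (which is at least `N ^ (1 - ε)`) of those for
which `⌊α P(n)⌋` is a prime. -/
theorem result (q : ℕ) (hq : 2 ≤ q) :
    ∃ E : Set ℝ, dimH E ≤ ENNReal.ofReal (q / (q + 1 / ((q : ℝ) * 2 ^ (q - 1)))) ∧ ∀ α : ℝ, 0 < α → α ∉ E →
      (∀ (K : ℕ) (ε : ℝ), 0 < ε → ∃ η : ℝ, 0 < η ∧ ∀ᶠ N : ℕ in atTop, ∀ P : Polynomial ℤ,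
        P.natDegree = q → 0 < P.leadingCoeff → (∀ j, |((P.coeff j : ℤ) : ℝ)| ≤ (N : ℝ) ^ η) →
        (count (Order K) α P N : ℝ) ≤ N * (Real.log N) ^ (ε - 1)) ∧
      (∀ (L : ℕ) (ε : ℝ), Odd L → 3 ≤ L → 0 < ε → ∃ η : ℝ, 0 < η ∧ ∀ᶠ N : ℕ in atTop, ∀ P : Polynomial ℤ,
        P.natDegree = q → 0 < P.leadingCoeff → (∀ j, |((P.coeff j : ℤ) : ℝ)| ≤ (N : ℝ) ^ η) →
        (count (NewOrder L) α P N : ℝ) ≤ ε * count Nat.Prime α P N ∧
          (N : ℝ) ^ (1 - ε) ≤ count Nat.Prime α P N) := by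
  classical
  obtain ⟨E1, hE1, h1⟩ := exc_nat q hq Order
  obtain ⟨E2, hE2, h2⟩ := prime_small (ι := ℕ) q hq (fun j => NewOrder (2 * j + 3))
    (fun j => seed2 (2 * j + 3) ⟨j + 1, by ring⟩ (by omega))
  refine ⟨E1 ∪ E2, ?_, fun α hα hαE => ⟨fun K ε hε => ?_, fun L ε hL h3 hε => ?_⟩⟩
  · rw [dimH_union]
    exact max_le hE1 hE2
  · obtain ⟨η, hη, -, h3, -⟩ := h1 α hα (fun h => hαE (Or.inl h)) K
    refine ⟨η, hη, ?_⟩
    set e : ℝ := min (ε / 2) (1 / 2) with he
    have he0 : 0 < e := by positivity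
    have he1 : e < 1 := (min_le_right _ _).trans_lt (by norm_num)
    have he2 : e < ε := (min_le_left _ _).trans_lt (by linarith)
    obtain ⟨C, hC⟩ := seed K e he0
    have h4 := h3 (1 - e) C (by linarith) hC
    have h5 : Tendsto (fun N : ℕ => (Real.log N) ^ (-(ε - e))) atTop (𝓝 0) :=
      (tendsto_rpow_neg_atTop (by linarith)).comp (Real.tendsto_log_atTop.comp tendsto_natCast_atTop_atTop)
    set A : ℝ := 5 * (|C| * 2 ^ (1 - e)) + 1 with hA
    have hA0 : 0 < A := by positivity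
    filter_upwards [h4, h5.eventually (gt_mem_nhds (show (0 : ℝ) < 1 / A by positivity)), eventually_ge_atTop 3]
      with N hN hN5 hN3 P hdeg hlead hco
    rw [count_eq]
    refine (hN P hdeg hlead hco).trans ?_
    have hN3r : (3 : ℝ) ≤ N := by exact_mod_cast hN3
    have hlog : 0 < Real.log N := Real.log_pos (by linarith)
    have h6 : (Real.log N) ^ (-(1 - e)) = (Real.log N) ^ (ε - 1) * (Real.log N) ^ (-(ε - e)) := by
      rw [← Real.rpow_add hlog]
      congr 1
      ring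
    rw [h6]
    calc A * N * ((Real.log N) ^ (ε - 1) * (Real.log N) ^ (-(ε - e))) =
        (A * (Real.log N) ^ (-(ε - e))) * (N * (Real.log N) ^ (ε - 1)) := by ring
      _ ≤ (A * (1 / A)) * (N * (Real.log N) ^ (ε - 1)) := by
        have : 0 ≤ (Real.log N) ^ (ε - 1) := by positivity
        gcongr
      _ = N * (Real.log N) ^ (ε - 1) := by
        rw [mul_one_div_cancel hA0.ne', one_mul]
  · obtain ⟨j, rfl⟩ : ∃ j, L = 2 * j + 3 := by
      obtain ⟨i, rfl⟩ := hL
      exact ⟨i - 1, by omega⟩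
    obtain ⟨η, hη, h4⟩ := h2 α hα (fun h => hαE (Or.inr h)) j
    refine ⟨η, hη, ?_⟩
    filter_upwards [h4 ε hε] with N hN P hdeg hlead hco
    rw [count_eq, count_eq]
    exact hN P hdeg hlead hco

end Pool.Agent.Results.MP_79499b_co.OrdersAlongRealMultiples
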