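import Pool.Agent.Q138.PS.XJ
import Pool.Agent.Results.MP_79499b_co.OrdersAlongRealMultiples

/-!
# The orders of difference sets with Singer parameters near the powers of a real number

For almost every real number `α > 1`, for all `K`, all positive algebraic numbers `c`, all integers `j`, all real `D`, `κ` and
`ε > 0`: for all but `N ^ (max 0 κ + ε)` of the `n ≤ N` NO integer `v` within `D n ^ κ` of `c n ^ j α ^ n` is the order of
a difference set with the Singer parameters of `(v, m)`, `m` odd with a prime factor at most `K` (planar ones included).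
-/

set_option autoImplicit false

namespace Pool.Agent.Results.MP_79499b_co.NearPowers

open Finset Filter Topology MeasureTheory
open Pool.Agent.Q138.PS
open Pool.Agent.Results.MP_79499b_co.OrderCountOdd (HasSingerDifferenceSet)

/-- the integers `v ≥ 2` such that some finite group contains a difference set with the Singer parameters of `(v, m)` for some
odd `m ≥ 3` with a prime factor at most `K`; `m = 3` are the planar difference sets of order `v` -/
def Orders (K : ℕ) : Set ℕ := {v | 2 ≤ v ∧ ∃ m : ℕ, Odd m ∧ 3 ≤ m ∧ m.minFac ≤ K ∧ HasSingerDifferenceSet v m}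

/-- **Theorem.** For almost every real number `α > 1`, for all `K`, all positive algebraic numbers `c`, all integers `j`, all
real numbers `D`, `κ` and all `ε > 0`: for all large `N` there are at most `N ^ (max 0 κ + ε)` numbers `n ≤ N` such that
an element of `Orders K` is within `D n ^ κ` of `c n ^ j α ^ n`. -/
theorem result :
    ∀ᵐ α : ℝ, 1 < α → ∀ (K : ℕ) (c : ℝ), 0 < c → IsAlgebraic ℚ c → ∀ (j : ℤ) (D κ ε : ℝ), 0 < ε → ∀ᶠ N : ℕ in atTop,
      (closeCount (Orders K) α c j D κ N : ℝ) ≤ (N : ℝ) ^ (max 0 κ + ε) := by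
  classical
  have h0 : ∀ k : ℕ, (0 : ℝ) ≤ 1 - 1 / ((k : ℝ) + 1) := by
    intro k
    have : 1 / ((k : ℝ) + 1) ≤ 1 := by
      rw [div_le_one (by positivity)]
      linarith [Nat.cast_nonneg (α := ℝ) k]
    linarith
  have h1 := pow_ae_few (ι := ℕ × ℕ) (fun i => Orders i.1) (fun i => 1 - 1 / ((i.2 : ℝ) + 1)) (fun i => h0 i.2) (by
    rintro ⟨K, k⟩
    obtain ⟨C, hC⟩ := OrdersAlongRealMultiples.seed K (1 / ((k : ℝ) + 1)) (by positivity)
    obtain ⟨C', hC'⟩ := cn_real (h0 k) (X := OrdersAlongRealMultiples.Order K) (C := C) hC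
    refine ⟨C', fun T hT => le_trans (le_of_eq ?_) (hC' T hT)⟩
    congr 2
    ext m
    constructor
    · rintro ⟨h1, h2⟩
      exact ⟨⟨by have := h1.1; omega, h1⟩, h2⟩
    · rintro ⟨⟨-, h1⟩, h2⟩
      exact ⟨h1, h2⟩)
  filter_upwards [h1] with α h2 hα K c hc hca j D κ ε hε
  obtain ⟨k, hk⟩ := exists_nat_one_div_lt (show 0 < ε / 2 by positivity)
  filter_upwards [h2 hα (K, k) c hc hca j D κ (ε / 2) (by positivity), eventually_ge_atTop 1] with N hN hN1
  refine hN.trans (Real.rpow_le_rpow_of_exponent_le (by exact_mod_cast hN1) ?_)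
  have h3 : max 0 (1 + κ - (1 - 1 / ((k : ℝ) + 1))) ≤ max 0 κ + ε / 2 := by
    refine max_le ?_ ?_
    · have := le_max_left 0 κ
      linarith
    · have := le_max_right 0 κ
      linarith
  linarith

end Pool.Agent.Results.MP_79499b_co.NearPowers
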