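import Mathlib
import Pool.Agent.Q17.Sing.Basic

/-!
# Singer parameters: orders `n ≡ 1 (mod 4)` which are not sums of two squares

Let `n ≡ 1 (mod 4)` be no sum of two squares and let the odd number `m` have a prime divisor
`q ≡ 3 (mod 4)`. Then no finite group contains a difference set with the Singer parameters of
`(n, m)`.

Proof: `w = 1 + n + ... + n ^ (q - 1)` divides the order of the group, and `w ≡ 3 (mod 4)`. A prime
`p ≡ 3 (mod 4)` divides `n` to an odd power, and `w ≡ 1 (mod p)`. By quadratic reciprocity for the
Jacobi symbol `p` is a nonresidue modulo some prime divisor `r` of `w`. An element of order `r` of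
the group gives a square matrix of odd size over the ring of integers of the `r`-th cyclotomic field,
with `A A* = n ^ (m - 2)`; this is impossible, since `-1` is a power of `p` modulo `r`.
-/

set_option autoImplicit false

namespace Pool.Agent.Results.MP_79499b_co.NotSumOfTwoSquares

/-- Some finite group `G` (not assumed abelian) of order `(n ^ m - 1) / (n - 1)` contains a
difference set `D` with the Singer parameters:
`k = (n ^ (m - 1) - 1) / (n - 1)`, `lambda = (n ^ (m - 2) - 1) / (n - 1)`. -/
def HasSingerDifferenceSet (n m : ℕ) : Prop :=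
  ∃ (G : Type) (_ : Group G) (_ : Fintype G) (_ : DecidableEq G) (D : Finset G),
    Fintype.card G * (n - 1) = n ^ m - 1 ∧ D.card * (n - 1) = n ^ (m - 1) - 1 ∧
    ∀ g : G, g ≠ 1 →
      ((D ×ˢ D).filter (fun p : G × G => p.1 * p.2⁻¹ = g)).card * (n - 1) = n ^ (m - 2) - 1

/-- Let `n ≡ 1 (mod 4)` be no sum of two squares, and let `m` be an odd number which has a prime
divisor `q ≡ 3 (mod 4)`. Then no finite group of order `(n ^ m - 1) / (n - 1)` contains a difference
set with the Singer parameters. -/
theorem result (n m q : ℕ) (hn : n % 4 = 1) (hns : ¬ ∃ a b : ℕ, n = a ^ 2 + b ^ 2) (hm : Odd m)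
    (hq : q.Prime) (hq4 : q % 4 = 3) (hqm : q ∣ m) : ¬ HasSingerDifferenceSet n m :=
  Q17.Sing.main hn hns hm hq hq4 hqm

end Pool.Agent.Results.MP_79499b_co.NotSumOfTwoSquares
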